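import Pool.Agent.Lib.MP_2d002d_gt.Interfaces

/-!
# MP_2d002d_gt: calculus of partial derivatives `pd` (shared by the modules)
-/

set_option autoImplicit false

open MeasureTheory Set Filter Topology
open scoped ContDiff

namespace Pool.Agent.Lib.MP_2d002d_gt

variable {n : ℕ}

lemma pd_congr {f g : (Fin n → ℝ) → ℝ} (h : ∀ x, f x = g x) (i : Fin n) (x : Fin n → ℝ) :
    pd i f x = pd i g x := by
  have : f = g := funext h
  rw [this]

lemma pd_add {f g : (Fin n → ℝ) → ℝ} {x : Fin n → ℝ} (hf : DifferentiableAt ℝ f x)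
    (hg : DifferentiableAt ℝ g x) (i : Fin n) :
    pd i (fun y => f y + g y) x = pd i f x + pd i g x := by
  unfold pd
  rw [fderiv_fun_add hf hg]
  rfl

lemma pd_sub {f g : (Fin n → ℝ) → ℝ} {x : Fin n → ℝ} (hf : DifferentiableAt ℝ f x)
    (hg : DifferentiableAt ℝ g x) (i : Fin n) :
    pd i (fun y => f y - g y) x = pd i f x - pd i g x := by
  unfold pd
  rw [fderiv_fun_sub hf hg]
  rfl

lemma pd_neg {f : (Fin n → ℝ) → ℝ} {x : Fin n → ℝ} (i : Fin n) :
    pd i (fun y => - f y) x = - pd i f x := by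
  unfold pd
  rw [fderiv_fun_neg]
  rfl

lemma pd_mul {f g : (Fin n → ℝ) → ℝ} {x : Fin n → ℝ} (hf : DifferentiableAt ℝ f x)
    (hg : DifferentiableAt ℝ g x) (i : Fin n) :
    pd i (fun y => f y * g y) x = f x * pd i g x + g x * pd i f x := by
  unfold pd
  rw [fderiv_fun_mul hf hg]
  simp

lemma pd_const_mul {f : (Fin n → ℝ) → ℝ} {x : Fin n → ℝ} (hf : DifferentiableAt ℝ f x) (c : ℝ)
    (i : Fin n) : pd i (fun y => c * f y) x = c * pd i f x := by
  unfold pd
  rw [fderiv_const_mul hf]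
  rfl

lemma pd_const (c : ℝ) (x : Fin n → ℝ) (i : Fin n) : pd i (fun _ => c) x = 0 := by
  unfold pd
  simp

lemma pd_sum {ι : Type*} (s : Finset ι) {f : ι → (Fin n → ℝ) → ℝ} {x : Fin n → ℝ}
    (hf : ∀ k ∈ s, DifferentiableAt ℝ (f k) x) (i : Fin n) :
    pd i (fun y => ∑ k ∈ s, f k y) x = ∑ k ∈ s, pd i (f k) x := by
  unfold pd
  rw [fderiv_fun_sum hf]
  simp

lemma pd_exp {f : (Fin n → ℝ) → ℝ} {x : Fin n → ℝ} (hf : DifferentiableAt ℝ f x) (i : Fin n) :
    pd i (fun y => Real.exp (f y)) x = Real.exp (f x) * pd i f x := by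
  unfold pd
  rw [fderiv_exp hf]
  simp

/-- chain rule for a function of one real variable composed with a function -/
lemma pd_comp {φ : ℝ → ℝ} {f : (Fin n → ℝ) → ℝ} {x : Fin n → ℝ}
    (hφ : DifferentiableAt ℝ φ (f x)) (hf : DifferentiableAt ℝ f x) (i : Fin n) :
    pd i (fun y => φ (f y)) x = deriv φ (f x) * pd i f x := by
  unfold pd
  have h : HasFDerivAt (fun y => φ (f y)) (deriv φ (f x) • fderiv ℝ f x) x :=
    hφ.hasDerivAt.comp_hasFDerivAt x hf.hasFDerivAt
  rw [h.fderiv]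
  simp

lemma pd_apply (i j : Fin n) (x : Fin n → ℝ) :
    pd i (fun y : Fin n → ℝ => y j) x = if i = j then 1 else 0 := by
  unfold pd
  have h : HasFDerivAt (fun y : Fin n → ℝ => y j) (ContinuousLinearMap.proj j : _ →L[ℝ] ℝ) x :=
    (ContinuousLinearMap.proj j : (Fin n → ℝ) →L[ℝ] ℝ).hasFDerivAt
  rw [h.fderiv]
  simp only [ContinuousLinearMap.proj_apply, Pi.single_apply, eq_comm]

/-- derivative of a function of one coordinate -/
lemma pd_coord {φ : ℝ → ℝ} (hφ : Differentiable ℝ φ) (i j : Fin n) (x : Fin n → ℝ) :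
    pd i (fun y : Fin n → ℝ => φ (y j)) x = if i = j then deriv φ (x j) else 0 := by
  rw [pd_comp (f := fun y : Fin n → ℝ => y j) (hφ _) (differentiableAt_apply j x), pd_apply]
  split <;> simp

lemma contDiff_pd {f : (Fin n → ℝ) → ℝ} (hf : ContDiff ℝ ∞ f) (i : Fin n) :
    ContDiff ℝ ∞ (pd i f) := by
  unfold pd
  exact (hf.fderiv_right (m := ∞) (by simp)).clm_apply contDiff_const

lemma continuous_pd {f : (Fin n → ℝ) → ℝ} (hf : ContDiff ℝ 1 f) (i : Fin n) :
    Continuous (pd i f) := by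
  unfold pd
  exact (hf.continuous_fderiv (by simp)).clm_apply continuous_const

lemma contDiff_coord {φ : ℝ → ℝ} (hφ : ContDiff ℝ ∞ φ) (j : Fin n) :
    ContDiff ℝ ∞ (fun y : Fin n → ℝ => φ (y j)) :=
  hφ.comp (contDiff_apply ℝ ℝ j)

lemma diffAt {f : (Fin n → ℝ) → ℝ} (hf : ContDiff ℝ ∞ f) (x : Fin n → ℝ) :
    DifferentiableAt ℝ f x := (hf.differentiable (by simp)) x

lemma contDiff_one {f : (Fin n → ℝ) → ℝ} (hf : ContDiff ℝ ∞ f) : ContDiff ℝ 1 f :=
  hf.of_le (by exact_mod_cast le_top)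

lemma hasCompactSupport_pd {f : (Fin n → ℝ) → ℝ} (hf : HasCompactSupport f) (i : Fin n) :
    HasCompactSupport (pd i f) := by
  unfold pd
  exact (hf.fderiv (𝕜 := ℝ)).comp_left (g := fun L : (Fin n → ℝ) →L[ℝ] ℝ => L (Pi.single i 1))
    (by simp)

/-- integration by parts: one of the two factors has compact support -/
lemma ibp {f g : (Fin n → ℝ) → ℝ} (hf : ContDiff ℝ 1 f) (hg : ContDiff ℝ 1 g)
    (hs : HasCompactSupport f ∨ HasCompactSupport g) (i : Fin n) :
    ∫ x, f x * pd i g x = - ∫ x, pd i f x * g x := by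
  have hc : ∀ {u v : (Fin n → ℝ) → ℝ}, Continuous u → Continuous v →
      (HasCompactSupport u ∨ HasCompactSupport v) → Integrable (fun x => u x * v x) := by
    intro u v hu hv h
    apply (hu.mul hv).integrable_of_hasCompactSupport
    rcases h with h | h
    · exact h.mul_right
    · exact h.mul_left
  apply integral_mul_fderiv_eq_neg_fderiv_mul_of_integrable
  · exact hc (continuous_pd hf i) hg.continuous
      (hs.imp (fun h => hasCompactSupport_pd h i) id)
  · exact hc hf.continuous (continuous_pd hg i)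
      (hs.imp id (fun h => hasCompactSupport_pd h i))
  · exact hc hf.continuous hg.continuous hs
  · intro x _
    exact hf.differentiable (by simp) x
  · intro x _
    exact hg.differentiable (by simp) x

lemma integral_pd_eq_zero {f : (Fin n → ℝ) → ℝ} (hf : ContDiff ℝ 1 f) (hs : HasCompactSupport f)
    (i : Fin n) : ∫ x, pd i f x = 0 := by
  have h := ibp (f := fun _ => (1 : ℝ)) contDiff_const hf (Or.inr hs) i
  simpa [pd_const] using h

lemma pd_symm {f : (Fin n → ℝ) → ℝ} (hf : ContDiff ℝ ∞ f) (i j : Fin n) (x : Fin n → ℝ) :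
    pd i (pd j f) x = pd j (pd i f) x := by
  have hd : Differentiable ℝ (fderiv ℝ f) :=
    (hf.fderiv_right (m := ∞) (by simp)).differentiable (by simp)
  have key : ∀ k l : Fin n, pd k (pd l f) x =
      fderiv ℝ (fderiv ℝ f) x (Pi.single k 1) (Pi.single l 1) := by
    intro k l
    unfold pd
    rw [fderiv_clm_apply (hd x) (differentiableAt_const _)]
    simp
  rw [key, key]
  have h2 : IsSymmSndFDerivAt ℝ f x :=
    ((contDiff_infty.1 hf 2).contDiffAt).isSymmSndFDerivAt (by simp)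
  exact h2 _ _

lemma pd_comp_neg (f : (Fin n → ℝ) → ℝ) (i : Fin n) (x : Fin n → ℝ) :
    pd i (fun y => f (-y)) x = - pd i f (-x) := by
  unfold pd
  have h := (ContinuousLinearEquiv.neg ℝ (M := Fin n → ℝ)).comp_right_fderiv (f := f) (x := x)
  have e : (f ∘ (ContinuousLinearEquiv.neg ℝ : (Fin n → ℝ) ≃L[ℝ] (Fin n → ℝ))) =
      fun y => f (-y) := by
    ext y
    simp
  rw [e] at h
  rw [h]
  simp

/-- the derivative along a line in terms of partial derivatives -/
lemma fderiv_eq_sum_pd (f : (Fin n → ℝ) → ℝ) (x ξ : Fin n → ℝ) :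
    fderiv ℝ f x ξ = ∑ i, ξ i * pd i f x := by
  unfold pd
  have h : ξ = ∑ i, ξ i • (Pi.single i 1 : Fin n → ℝ) := by
    ext j
    simp [Finset.sum_apply, Pi.single_apply]
  conv_lhs => rw [h]
  rw [map_sum]
  refine Finset.sum_congr rfl fun i _ => ?_
  rw [map_smul, smul_eq_mul]

end Pool.Agent.Lib.MP_2d002d_gt
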