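import Mathlib

/-!
# MP_2d002d_gt: interfaces of the modules (see Blueprint.md in this folder)

Every module proves one of the `Prop`s below, e.g. `theorem dens : Dens`.
-/

set_option autoImplicit false

open MeasureTheory Set Filter Topology
open scoped ContDiff ENNReal Pointwise

namespace Pool.Agent.Lib.MP_2d002d_gt

/-- partial derivative in direction `i` -/
noncomputable def pd {n : ℕ} (i : Fin n) (f : (Fin n → ℝ) → ℝ) (x : Fin n → ℝ) : ℝ :=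
  fderiv ℝ f x (Pi.single i 1)

/-- weighted divergence of the vector field `X` (components `X i`) for the weight `exp (-Ψ)` -/
noncomputable def dv {n : ℕ} (Ψ : (Fin n → ℝ) → ℝ) (X : Fin n → (Fin n → ℝ) → ℝ)
    (x : Fin n → ℝ) : ℝ :=
  ∑ i, (pd i (X i) x - pd i Ψ x * X i x)

/-- the vector field `M ∇u`, `M = diag (1 / b i (x i))` -/
noncomputable def fld {n : ℕ} (b : Fin n → ℝ → ℝ) (u : (Fin n → ℝ) → ℝ) (i : Fin n)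
    (x : Fin n → ℝ) : ℝ :=
  pd i u x / b i (x i)

/-! ## M1, M2: density lemma -/

/-- M1 (module `Dens`): `L u = Δ u - ∇Ψ·∇u` has dense range in the mean zero functions. -/
def Dens : Prop :=
  ∀ (n : ℕ) (Ψ h : (Fin n → ℝ) → ℝ), ContDiff ℝ ∞ Ψ →
    Integrable (fun x => Real.exp (-Ψ x)) → Continuous h →
    Integrable (fun x => h x ^ 2 * Real.exp (-Ψ x)) →
    (∫ x, h x * Real.exp (-Ψ x)) = 0 → ∀ ε : ℝ, 0 < ε →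
    ∃ u : (Fin n → ℝ) → ℝ, ContDiff ℝ ∞ u ∧ HasCompactSupport u ∧
      ∫ x, (dv Ψ (fun i => pd i u) x - h x) ^ 2 * Real.exp (-Ψ x) ≤ ε

/-- M2 (module `DensM`): the same for the operator `div_Ψ (M ∇u)`. -/
def DensM : Prop :=
  ∀ (n : ℕ) (Ψ h : (Fin n → ℝ) → ℝ) (b : Fin n → ℝ → ℝ), ContDiff ℝ ∞ Ψ →
    (∀ i, ContDiff ℝ ∞ (b i)) → (∃ δ : ℝ, 0 < δ ∧ ∀ i x, δ ≤ b i x) →
    Integrable (fun x => Real.exp (-Ψ x)) → Continuous h →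
    Integrable (fun x => h x ^ 2 * Real.exp (-Ψ x)) →
    (∫ x, h x * Real.exp (-Ψ x)) = 0 → ∀ ε : ℝ, 0 < ε →
    ∃ u : (Fin n → ℝ) → ℝ, ContDiff ℝ ∞ u ∧ HasCompactSupport u ∧
      ∫ x, (dv Ψ (fld b u) x - h x) ^ 2 * Real.exp (-Ψ x) ≤ ε

/-- M2 (module `DensM`), second half: with even data `u` can be taken even. -/
def DensMEven : Prop :=
  ∀ (n : ℕ) (Ψ h : (Fin n → ℝ) → ℝ) (b : Fin n → ℝ → ℝ), ContDiff ℝ ∞ Ψ →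
    (∀ i, ContDiff ℝ ∞ (b i)) → (∃ δ : ℝ, 0 < δ ∧ ∀ i x, δ ≤ b i x) →
    (∀ x, Ψ (-x) = Ψ x) → (∀ x, h (-x) = h x) → (∀ i x, b i (-x) = b i x) →
    Integrable (fun x => Real.exp (-Ψ x)) → Continuous h →
    Integrable (fun x => h x ^ 2 * Real.exp (-Ψ x)) →
    (∫ x, h x * Real.exp (-Ψ x)) = 0 → ∀ ε : ℝ, 0 < ε →
    ∃ u : (Fin n → ℝ) → ℝ, ContDiff ℝ ∞ u ∧ HasCompactSupport u ∧ (∀ x, u (-x) = u x) ∧
      ∫ x, (dv Ψ (fld b u) x - h x) ^ 2 * Real.exp (-Ψ x) ≤ ε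

/-! ## M3: integration by parts and Bochner's identity for compactly supported fields -/

/-- M3a (module `Boch`) -/
def IBP : Prop :=
  ∀ (n : ℕ) (Ψ g : (Fin n → ℝ) → ℝ) (X : Fin n → (Fin n → ℝ) → ℝ), ContDiff ℝ 1 Ψ →
    ContDiff ℝ 1 g → (∀ i, ContDiff ℝ 1 (X i)) → (∀ i, HasCompactSupport (X i)) →
    ∫ x, g x * dv Ψ X x * Real.exp (-Ψ x) =
      - ∫ x, (∑ i, X i x * pd i g x) * Real.exp (-Ψ x)

/-- M3b (module `Boch`) -/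
def Boch : Prop :=
  ∀ (n : ℕ) (Ψ : (Fin n → ℝ) → ℝ) (X : Fin n → (Fin n → ℝ) → ℝ), ContDiff ℝ ∞ Ψ →
    (∀ i, ContDiff ℝ ∞ (X i)) → (∀ i, HasCompactSupport (X i)) →
    ∫ x, dv Ψ X x ^ 2 * Real.exp (-Ψ x) =
      ∫ x, ((∑ i, ∑ j, pd i (X j) x * pd j (X i) x) +
        ∑ i, ∑ j, pd i (pd j Ψ) x * X i x * X j x) * Real.exp (-Ψ x)

/-! ## M4: Brascamp-Lieb -/

/-- M4 (module `BL`, from `DensM`, `IBP`, `Boch`) -/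
def BL : Prop :=
  ∀ (n : ℕ) (Ψ g : (Fin n → ℝ) → ℝ) (b : Fin n → ℝ → ℝ), ContDiff ℝ ∞ Ψ →
    (∀ i, ContDiff ℝ ∞ (b i)) → (∃ δ : ℝ, 0 < δ ∧ ∀ i x, δ ≤ b i x) →
    Integrable (fun x => Real.exp (-Ψ x)) →
    (∀ x ξ : Fin n → ℝ, ∑ i, b i (x i) * ξ i ^ 2 ≤
      ∑ i, ∑ j, pd i (pd j Ψ) x * ξ i * ξ j) →
    ContDiff ℝ ∞ g → HasCompactSupport g → (∫ x, g x * Real.exp (-Ψ x)) = 0 →
    ∫ x, g x ^ 2 * Real.exp (-Ψ x) ≤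
      ∫ x, (∑ i, pd i g x ^ 2 / b i (x i)) * Real.exp (-Ψ x)

/-! ## M5: Knothe map -/

/-- M5 (module `Knothe`) -/
def Knothe : Prop :=
  ∀ (n : ℕ) (P Q : (Fin n → ℝ) → ℝ), Continuous P → Continuous Q →
    (∃ c : ℝ, 0 < c ∧ ∃ C : ℝ, ∀ x, c * ∑ i, x i ^ 2 - C ≤ P x) →
    (∃ c : ℝ, 0 < c ∧ ∃ C : ℝ, ∀ x, c * ∑ i, x i ^ 2 - C ≤ Q x) →
    (∫ x, Real.exp (-P x)) = ∫ x, Real.exp (-Q x) →
    ∃ N : (Fin n → ℝ) → (Fin n → ℝ), Continuous N ∧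
      ∀ w : (Fin n → ℝ) → ℝ, ContDiff ℝ 1 w → HasCompactSupport w → (∀ x, 0 ≤ w x) →
        ∫ x, w x * (Q (N x) - P x) ≤ - ∑ j, ∫ x, (N x j - x j) * pd j w x

/-! ## the potentials -/

/-- admissible profiles: the potential of type A is `x ↦ A (x ^ 2)` -/
structure Adm (A : ℝ → ℝ) : Prop where
  smooth : ContDiff ℝ ∞ A
  lo : ∃ δ : ℝ, 0 < δ ∧ ∀ s, 0 ≤ s → δ ≤ deriv A s
  up : ∃ C : ℝ, ∀ s, 0 ≤ s → deriv A s ≤ C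
  lo2 : ∀ s, 0 ≤ s → 0 ≤ deriv (deriv A) s
  up2 : ∃ C : ℝ, ∀ s, 0 ≤ s → deriv (deriv A) s ≤ C

/-- one-coordinate potential `U_i (x) = A_i (x²) + σ_i x² / 2` -/
noncomputable def Uf {n : ℕ} (A : Fin n → ℝ → ℝ) (σ : Fin n → ℝ) (i : Fin n) (x : ℝ) : ℝ :=
  A i (x ^ 2) + σ i * x ^ 2 / 2

/-- `b_i (x) = U_i' (x) / x = 2 A_i' (x²) + σ_i` -/
noncomputable def bf {n : ℕ} (A : Fin n → ℝ → ℝ) (σ : Fin n → ℝ) (i : Fin n) (x : ℝ) : ℝ :=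
  2 * deriv (A i) (x ^ 2) + σ i

/-- total potential `Ψ = ∑ U_i + ψ` -/
noncomputable def Psi {n : ℕ} (A : Fin n → ℝ → ℝ) (σ : Fin n → ℝ) (ψ : (Fin n → ℝ) → ℝ)
    (x : Fin n → ℝ) : ℝ :=
  (∑ i, Uf A σ i (x i)) + ψ x

/-! ## M6: slice inequality and the inequality `J_A ≥ 0` -/

/-- M6a (module `Slice`, from `Knothe`): slice inequality. -/
def Slice : Prop :=
  ∀ (m : ℕ) (A : Fin m → ℝ → ℝ) (σ : Fin m → ℝ) (ψ : ℝ × (Fin m → ℝ) → ℝ) (t : ℝ)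
    (v : (Fin m → ℝ) → ℝ),
    (∀ i, Adm (A i)) → (∀ i, 0 ≤ σ i) → ContDiff ℝ ∞ ψ → (∀ z, ψ (-z) = ψ z) →
    ConvexOn ℝ univ ψ → ContDiff ℝ 1 v → HasCompactSupport v →
    0 ≤ ∫ y, (t * fderiv ℝ ψ (t, y) (1, 0) * v y ^ 2 + ∑ l, pd l v y ^ 2 / bf A σ l (y l)) *
      Real.exp (-(Psi A σ (fun y => ψ (t, y)) y))

/-- M6b (module `JA`, from `Slice`) -/
def JA : Prop :=
  ∀ (n : ℕ) (A : Fin n → ℝ → ℝ) (σ : Fin n → ℝ) (ψ X : (Fin n → ℝ) → ℝ) (j : Fin n) (α : ℝ),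
    (∀ i, Adm (A i)) → (∀ i, 0 ≤ σ i) → ContDiff ℝ ∞ ψ → (∀ x, ψ (-x) = ψ x) →
    ConvexOn ℝ univ ψ → (∃ C : ℝ, ∀ x, ‖fderiv ℝ ψ x‖ ≤ C) →
    ContDiff ℝ ∞ X → HasCompactSupport X →
    0 ≤ ∫ x, (2 * deriv (A j) (x j ^ 2) * (∑ l, pd l X x ^ 2 / bf A σ l (x l)) +
        (2 * deriv (A j) (x j ^ 2) + 4 * x j ^ 2 * deriv (deriv (A j)) (x j ^ 2)) *
          (X x - α * x j) ^ 2 -
        4 * α * x j * deriv (A j) (x j ^ 2) * (X x - α * x j)) * Real.exp (-(Psi A σ ψ x))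

/-! ## M7: the static inequality -/

/-- `σ_i = ∑_{o k = i} s_k` -/
noncomputable def sig {n d : ℕ} (o : Fin d → Fin n) (s : Fin d → ℝ) (i : Fin n) : ℝ :=
  ∑ k, if o k = i then s k else 0

/-- the first time derivative of the potential at `a = 1` -/
noncomputable def hf {n d : ℕ} (o : Fin d → Fin n) (A : Fin n → ℝ → ℝ) (s β : Fin d → ℝ) (α : ℝ)
    (p : (Fin n → ℝ) → ℝ) (x : Fin n → ℝ) : ℝ :=
  p x - α * (∑ i, x i ^ 2 * bf A (sig o s) i (x i)) + (∑ k, s k * β k * x (o k) ^ 2) / 2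

/-- the second time derivative of the potential at `a = 1` -/
noncomputable def ff {n d : ℕ} (o : Fin d → Fin n) (A : Fin n → ℝ → ℝ) (s β : Fin d → ℝ) (α : ℝ)
    (q : (Fin n → ℝ) → ℝ) (x : Fin n → ℝ) : ℝ :=
  q x + α ^ 2 * (∑ i, (6 * deriv (A i) (x i ^ 2) * x i ^ 2 +
      4 * deriv (deriv (A i)) (x i ^ 2) * x i ^ 4)) +
    ∑ k, s k * (3 * α ^ 2 - 2 * α * β k + β k ^ 2 / 2) * x (o k) ^ 2

/-- M7 (module `Static`, from `DensMEven`, `IBP`, `Boch`, `BL`, `JA`) -/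
def Static : Prop :=
  ∀ (n d : ℕ) (o : Fin d → Fin n) (A : Fin n → ℝ → ℝ) (s β : Fin d → ℝ) (α : ℝ)
    (ψ p q : (Fin n → ℝ) → ℝ),
    (∀ i, Adm (A i)) → (∀ k, 0 ≤ s k) →
    ContDiff ℝ ∞ ψ → (∀ x, ψ (-x) = ψ x) → ConvexOn ℝ univ ψ →
    (∃ C : ℝ, ∀ x, ‖fderiv ℝ ψ x‖ ≤ C) →
    ContDiff ℝ ∞ p → (∀ x, p (-x) = p x) → (∃ C : ℝ, ∀ x, |p x| ≤ C) →
    Continuous q → (∃ C : ℝ, ∀ x, |q x| ≤ C) →
    (∀ x ξ : Fin n → ℝ, 0 ≤ (∑ i, ∑ j, pd i (pd j ψ) x * ξ i * ξ j) +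
      2 * (∑ i, ξ i * pd i p x) + q x) →
    (∫ x, Real.exp (-(Psi A (sig o s) ψ x))) *
        (∫ x, hf o A s β α p x ^ 2 * Real.exp (-(Psi A (sig o s) ψ x))) -
      (∫ x, hf o A s β α p x * Real.exp (-(Psi A (sig o s) ψ x))) ^ 2 ≤
    (∫ x, Real.exp (-(Psi A (sig o s) ψ x))) *
      ∫ x, ff o A s β α q x * Real.exp (-(Psi A (sig o s) ψ x))

/-! ## M8: log-concavity in time, smooth version -/

/-- `pot = ∑ A_i ((x_i/a)²) + ½ ∑ e^{r_k} (x_{o k}/a)²` -/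
noncomputable def pot {n d : ℕ} (o : Fin d → Fin n) (A : Fin n → ℝ → ℝ) (a : ℝ) (r : Fin d → ℝ)
    (x : Fin n → ℝ) : ℝ :=
  (∑ i, A i ((x i / a) ^ 2)) + (∑ k, Real.exp (r k) * (x (o k) / a) ^ 2) / 2

/-- M8 (module `Diff`, from `Static`) -/
def LCsmooth : Prop :=
  ∀ (n d : ℕ) (o : Fin d → Fin n) (A : Fin n → ℝ → ℝ) (r β : Fin d → ℝ) (a0 α t0 t1 : ℝ)
    (ψ : (Fin n → ℝ) × ℝ → ℝ),
    (∀ i, Adm (A i)) → (∀ t ∈ Ioo t0 t1, 0 < a0 + α * t) →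
    ContDiff ℝ ∞ ψ → (∀ x t, ψ (-x, t) = ψ (x, t)) →
    ConvexOn ℝ (univ ×ˢ Ioo t0 t1) ψ →
    (∃ C : ℝ, ∀ z, ‖fderiv ℝ ψ z‖ ≤ C) → (∃ C : ℝ, ∀ z, ‖fderiv ℝ (fderiv ℝ ψ) z‖ ≤ C) →
    ConcaveOn ℝ (Ioo t0 t1) (fun t => Real.log
      (∫ x, Real.exp (-(pot o A (a0 + α * t) (fun k => r k + β k * t) x + ψ (x, t)))))

/-! ## M9: sets -/

/-- M9 (module `Sets`, from `LCsmooth`) -/
def JLCr : Prop :=
  ∀ (n d : ℕ) (o : Fin d → Fin n) (A : Fin n → ℝ → ℝ) (K0 K1 : Set (Fin n → ℝ))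
    (r0 r1 : Fin d → ℝ) (a0 a1 t : ℝ),
    (∀ i, Adm (A i)) → Convex ℝ K0 → Convex ℝ K1 → K0.Nonempty → K1.Nonempty →
    (∀ x ∈ K0, -x ∈ K0) → (∀ x ∈ K1, -x ∈ K1) →
    Bornology.IsBounded K0 → Bornology.IsBounded K1 → 0 < a0 → 0 < a1 → 0 < t → t < 1 →
    (∫ x in K0, Real.exp (-pot o A a0 r0 x)) ^ (1 - t) *
        (∫ x in K1, Real.exp (-pot o A a1 r1 x)) ^ t ≤
      ∫ x in (1 - t) • K0 + t • K1,
        Real.exp (-pot o A ((1 - t) * a0 + t * a1) (fun k => (1 - t) * r0 k + t * r1 k) x)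

/-! ## M10: mixtures, and Brunn-Minkowski from joint log-concavity -/

/-- joint log-concavity of `(K, a) ↦ ∫_K f (x / a) dx` -/
def JLC {n : ℕ} (f : (Fin n → ℝ) → ℝ) : Prop :=
  ∀ (K0 K1 : Set (Fin n → ℝ)) (a0 a1 t : ℝ),
    Convex ℝ K0 → Convex ℝ K1 → K0.Nonempty → K1.Nonempty →
    (∀ x ∈ K0, -x ∈ K0) → (∀ x ∈ K1, -x ∈ K1) →
    Bornology.IsBounded K0 → Bornology.IsBounded K1 → 0 < a0 → 0 < a1 → 0 < t → t < 1 →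
    (∫ x in K0, f (a0⁻¹ • x)) ^ (1 - t) * (∫ x in K1, f (a1⁻¹ • x)) ^ t ≤
      ∫ x in (1 - t) • K0 + t • K1, f (((1 - t) * a0 + t * a1)⁻¹ • x)

/-- log-concavity of a nonnegative function on the line, in the form of the frozen statement -/
def LC1 (w : ℝ → ℝ) : Prop :=
  ∀ x y t : ℝ, 0 ≤ t → t ≤ 1 → w x ^ t * w y ^ (1 - t) ≤ w (t * x + (1 - t) * y)

/-- M10a (module `Mix`, from `JLCr` and Prékopa-Leindler): products of an admissible Gaussian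
type factor and log-scale mixtures of Gaussians, one mixing variable `r k` per factor `k`,
which acts on coordinate `o k`. -/
def MixJLC : Prop :=
  ∀ (n d : ℕ) (o : Fin d → Fin n) (A : Fin n → ℝ → ℝ) (w : Fin d → ℝ → ℝ),
    (∀ i, Adm (A i)) → (∀ k x, 0 ≤ w k x) → (∀ k, LC1 (w k)) → (∀ k, Measurable (w k)) →
    (∀ k, Integrable (w k)) →
    JLC (fun x : Fin n → ℝ => (∏ i, Real.exp (-A i (x i ^ 2))) *
      ∏ k, ∫ r, Real.exp (-(Real.exp r * x (o k) ^ 2 / 2)) * w k r)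

/-- M10b (module `ToBM`): joint log-concavity gives Brunn-Minkowski with exponent `1 / n`. -/
def ToBM : Prop :=
  ∀ (n : ℕ) (f : (Fin n → ℝ) → ℝ), 1 ≤ n → (∀ x, 0 ≤ f x) → AEMeasurable f →
    (∀ x (s : ℝ), 0 ≤ s → s ≤ 1 → f x ≤ f (s • x)) → JLC f →
    ∀ A B : Set (Fin n → ℝ), Convex ℝ A → Convex ℝ B → A.Nonempty → B.Nonempty →
      (∀ x ∈ A, -x ∈ A) → (∀ x ∈ B, -x ∈ B) → ∀ t : ℝ, 0 ≤ t → t ≤ 1 →
      ENNReal.ofReal t * ((volume.withDensity (fun x => ENNReal.ofReal (f x))) A) ^ (1 / (n : ℝ))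
        + ENNReal.ofReal (1 - t) *
          ((volume.withDensity (fun x => ENNReal.ofReal (f x))) B) ^ (1 / (n : ℝ))
        ≤ ((volume.withDensity (fun x => ENNReal.ofReal (f x))) (t • A + (1 - t) • B)) ^
          (1 / (n : ℝ))

/-! ## M11: limits -/

/-- M11a (module `ProfLim`): approximation of nonincreasing log-concave profiles by admissible
ones. -/
def ProfLim : Prop :=
  ∀ g : ℝ → ℝ, (∀ s, 0 ≤ s → 0 ≤ g s) → (∀ s t, 0 ≤ s → s ≤ t → g t ≤ g s) →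
    (∀ x y t : ℝ, 0 ≤ x → 0 ≤ y → 0 ≤ t → t ≤ 1 →
      g x ^ t * g y ^ (1 - t) ≤ g (t * x + (1 - t) * y)) →
    (∃ s, 0 < s ∧ 0 < g s) →
    ∃ A : ℕ → ℝ → ℝ, (∀ m, Adm (A m)) ∧ (∃ C : ℝ, ∀ m s, 0 ≤ s → Real.exp (-A m s) ≤ C) ∧
      ∀ᵐ x : ℝ, 0 < g (x ^ 2) → Tendsto (fun m => Real.exp (-A m (x ^ 2))) atTop (𝓝 (g (x ^ 2)))

/-- M11b (module `Thorin`): `exp (-c |x|^p)`, `0 < p < 2`, is a limit of finite products of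
`(1 + x²/a)^{-w}`. -/
def Thorin : Prop :=
  ∀ c p : ℝ, 0 < c → 0 < p → p < 2 →
    ∃ (m : ℕ → ℕ) (a w : ∀ N, Fin (m N) → ℝ), (∀ N j, 0 < a N j) ∧ (∀ N j, 0 < w N j) ∧
      ∀ x : ℝ, Tendsto (fun N => ∏ j, (1 + x ^ 2 / a N j) ^ (-(w N j))) atTop
        (𝓝 (Real.exp (-(c * |x| ^ p))))

/-- M11c (module `GammaMix`): `(1 + x²/a)^{-c}` is a log-scale mixture of Gaussians. -/
def GammaMix : Prop :=
  ∀ a c : ℝ, 0 < a → 0 < c → ∃ w : ℝ → ℝ, (∀ r, 0 ≤ w r) ∧ LC1 w ∧ Measurable w ∧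
    Integrable w ∧ ∀ x : ℝ,
      (1 + x ^ 2 / a) ^ (-c) = ∫ r, Real.exp (-(Real.exp r * x ^ 2 / 2)) * w r

/-- the class of one-dimensional densities of the final theorem -/
inductive Cls : (ℝ → ℝ) → Prop
  /-- `g (x²)` with `g` nonincreasing and log-concave on `[0, ∞)` -/
  | profile (g : ℝ → ℝ) : (∀ s, 0 ≤ s → 0 ≤ g s) → (∀ s t, 0 ≤ s → s ≤ t → g t ≤ g s) →
      (∀ x y t : ℝ, 0 ≤ x → 0 ≤ y → 0 ≤ t → t ≤ 1 →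
        g x ^ t * g y ^ (1 - t) ≤ g (t * x + (1 - t) * y)) → Cls (fun x => g (x ^ 2))
  | power (c p : ℝ) : 0 ≤ c → 0 < p → p ≤ 2 → Cls (fun x => Real.exp (-(c * |x| ^ p)))
  | student (c a : ℝ) : 0 ≤ c → 0 < a → Cls (fun x => (1 + x ^ 2 / a) ^ (-c))
  | mixture (w : ℝ → ℝ) : (∀ r, 0 ≤ w r) → LC1 w → Integrable w →
      Cls (fun x => ∫ r, Real.exp (-(Real.exp r * x ^ 2 / 2)) * w r)
  | mul (f g : ℝ → ℝ) : Cls f → Cls g → Cls (fun x => f x * g x)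
  | lim (f : ℕ → ℝ → ℝ) (g : ℝ → ℝ) : (∀ k, Cls (f k)) →
      (∀ x, Tendsto (fun k => f k x) atTop (𝓝 (g x))) → Cls g

/-- M12 (module `Final`, from `MixJLC`, `ProfLim`, `Thorin`, `GammaMix`): joint log-concavity for
products of densities of the class; `ToBM` then gives the hand-in. -/
def ClsJLC : Prop :=
  ∀ (n : ℕ) (f : Fin n → ℝ → ℝ), (∀ i, Cls (f i)) → JLC (fun x : Fin n → ℝ => ∏ i, f i (x i))

/-- M12, second half: the elementary properties of the class needed by `ToBM`. -/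
def ClsProps : Prop :=
  ∀ f : ℝ → ℝ, Cls f → (∀ x, 0 ≤ f x) ∧ Measurable f ∧ (∀ x, f (-x) = f x) ∧
    ∀ x y : ℝ, |x| ≤ |y| → f y ≤ f x

end Pool.Agent.Lib.MP_2d002d_gt
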